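import Mathlib

/-!
# TL, part DEC: polynomial certificates (Bernstein form)
-/

set_option autoImplicit false

namespace Pool.Agent.H37.TL

/-- two-variable certificate for (F5) -/
theorem cert5 (y t : ℝ) (hy : 0 ≤ y) (hy1 : y ≤ 1) (ht : 0 ≤ t) (ht1 : t ≤ 1) :
    0 ≤ (1 + (1 - y) * ((1 - 27 / 100 * y) * t) -
        (1 - (1 - y) * ((1 - 27 / 100 * y) * t)) * ((1 - 27 / 100 * y) * t) / 3) * (1 + y + y ^ 2 / 2) *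
        (1 + (1 - (1 - y) * ((1 - 27 / 100 * y) * t)) * (1 + y + y ^ 2 / 2)) -
      (1 - 27 / 100 * y) * t * (1 + y) *
        (2 + (1 - (1 - y) * ((1 - 27 / 100 * y) * t)) * (1 + y + y ^ 2 / 2)) := by
  obtain ⟨z, hz⟩ : ∃ z : ℝ, z = 1 - y := ⟨_, rfl⟩
  obtain ⟨r, hr⟩ : ∃ r : ℝ, r = 1 - t := ⟨_, rfl⟩
  have hz0 : 0 ≤ z := by linarith
  have hr0 : 0 ≤ r := by linarith
  have key : (1 + (1 - y) * ((1 - 27 / 100 * y) * t) -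
        (1 - (1 - y) * ((1 - 27 / 100 * y) * t)) * ((1 - 27 / 100 * y) * t) / 3) * (1 + y + y ^ 2 / 2) *
        (1 + (1 - (1 - y) * ((1 - 27 / 100 * y) * t)) * (1 + y + y ^ 2 / 2)) -
      (1 - 27 / 100 * y) * t * (1 + y) *
        (2 + (1 - (1 - y) * ((1 - 27 / 100 * y) * t)) * (1 + y + y ^ 2 / 2)) =
      2 * y ^ 0 * z ^ 9 * t ^ 0 * r ^ 3 +
      (10/3) * y ^ 0 * z ^ 9 * t ^ 1 * r ^ 2 +
      (5/3) * y ^ 0 * z ^ 9 * t ^ 2 * r ^ 1 +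
      21 * y ^ 1 * z ^ 8 * t ^ 0 * r ^ 3 +
      (868/25) * y ^ 1 * z ^ 8 * t ^ 1 * r ^ 2 +
      (497/30) * y ^ 1 * z ^ 8 * t ^ 2 * r ^ 1 +
      (7/60) * y ^ 1 * z ^ 8 * t ^ 3 * r ^ 0 +
      (197/2) * y ^ 2 * z ^ 7 * t ^ 0 * r ^ 3 +
      (49133/300) * y ^ 2 * z ^ 7 * t ^ 1 * r ^ 2 +
      (765729/10000) * y ^ 2 * z ^ 7 * t ^ 2 * r ^ 1 +
      (103/60) * y ^ 2 * z ^ 7 * t ^ 3 * r ^ 0 +
      (541/2) * y ^ 3 * z ^ 6 * t ^ 0 * r ^ 3 +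
      (10961/24) * y ^ 3 * z ^ 6 * t ^ 1 * r ^ 2 +
      (3196727/15000) * y ^ 3 * z ^ 6 * t ^ 2 * r ^ 1 +
      (25079183/3000000) * y ^ 3 * z ^ 6 * t ^ 3 * r ^ 0 +
      (1915/4) * y ^ 4 * z ^ 5 * t ^ 0 * r ^ 3 +
      (123943/150) * y ^ 4 * z ^ 5 * t ^ 1 * r ^ 2 +
      (5833813/15000) * y ^ 4 * z ^ 5 * t ^ 2 * r ^ 1 +
      (30168349/1500000) * y ^ 4 * z ^ 5 * t ^ 3 * r ^ 0 +
      (2263/4) * y ^ 5 * z ^ 4 * t ^ 0 * r ^ 3 +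
      (1203137/1200) * y ^ 5 * z ^ 4 * t ^ 1 * r ^ 2 +
      (1913019/4000) * y ^ 5 * z ^ 4 * t ^ 2 * r ^ 1 +
      (10132189/375000) * y ^ 5 * z ^ 4 * t ^ 3 * r ^ 0 +
      446 * y ^ 6 * z ^ 3 * t ^ 0 * r ^ 3 +
      (61042/75) * y ^ 6 * z ^ 3 * t ^ 1 * r ^ 2 +
      (9451529/24000) * y ^ 6 * z ^ 3 * t ^ 2 * r ^ 1 +
      (4128933/200000) * y ^ 6 * z ^ 3 * t ^ 3 * r ^ 0 +
      226 * y ^ 7 * z ^ 2 * t ^ 0 * r ^ 3 +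
      (31904/75) * y ^ 7 * z ^ 2 * t ^ 1 * r ^ 2 +
      (8345797/40000) * y ^ 7 * z ^ 2 * t ^ 2 * r ^ 1 +
      (1351649/160000) * y ^ 7 * z ^ 2 * t ^ 3 * r ^ 0 +
      (267/4) * y ^ 8 * z ^ 1 * t ^ 0 * r ^ 3 +
      (12969/100) * y ^ 8 * z ^ 1 * t ^ 1 * r ^ 2 +
      (64459/1000) * y ^ 8 * z ^ 1 * t ^ 2 * r ^ 1 +
      (1519/1000) * y ^ 8 * z ^ 1 * t ^ 3 * r ^ 0 +
      (35/4) * y ^ 9 * z ^ 0 * t ^ 0 * r ^ 3 +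
      (21061/1200) * y ^ 9 * z ^ 0 * t ^ 1 * r ^ 2 +
      (5311/600) * y ^ 9 * z ^ 0 * t ^ 2 * r ^ 1 +
      (61/1200) * y ^ 9 * z ^ 0 * t ^ 3 * r ^ 0 := by
    rw [hz, hr]
    ring
  rw [key]
  positivity

/-- coefficient of L² -/
theorem cc2 (K : ℝ) (h1 : 1 ≤ K) (h3 : K ≤ 3) :
    (43/50) ≤ (5 / 2 - K / 5) * (31 / 50 + 69 / 50 * K) - K ^ 3 * (3 - K) * ((K + 2) / 6) := by
  obtain ⟨t, ht⟩ : ∃ t : ℝ, t = (K - 1) / 2 := ⟨_, rfl⟩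
  obtain ⟨r, hr⟩ : ∃ r : ℝ, r = 1 - t := ⟨_, rfl⟩
  have ht0 : 0 ≤ t := by linarith
  have hr0 : 0 ≤ r := by linarith
  have hK : K = 1 + 2 * t := by rw [ht]; ring
  have key : (5 / 2 - K / 5) * (31 / 50 + 69 / 50 * K) - K ^ 3 * (3 - K) * ((K + 2) / 6) - (43/50) =
      (137/50) * t ^ 0 * r ^ 10 + (20461/750) * t ^ 1 * r ^ 9 + (41923/375) * t ^ 2 * r ^ 8 + (90386/375) * t ^ 3 * r ^ 7 + (21289/75) * t ^ 4 * r ^ 6 + (60139/375) * t ^ 5 * r ^ 5 + (6188/375) * t ^ 6 * r ^ 4 + (126/125) * t ^ 7 * r ^ 3 + (10029/250) * t ^ 8 * r ^ 2 + (67/2) * t ^ 9 * r ^ 1 + (1023/125) * t ^ 10 * r ^ 0 := by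
    rw [hr, hK]
    ring
  have h0 : 0 ≤ (137/50) * t ^ 0 * r ^ 10 + (20461/750) * t ^ 1 * r ^ 9 + (41923/375) * t ^ 2 * r ^ 8 + (90386/375) * t ^ 3 * r ^ 7 + (21289/75) * t ^ 4 * r ^ 6 + (60139/375) * t ^ 5 * r ^ 5 + (6188/375) * t ^ 6 * r ^ 4 + (126/125) * t ^ 7 * r ^ 3 + (10029/250) * t ^ 8 * r ^ 2 + (67/2) * t ^ 9 * r ^ 1 + (1023/125) * t ^ 10 * r ^ 0 := by positivity
  linarith

/-- coefficient of L -/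
theorem cc1 (K : ℝ) (h1 : 1 ≤ K) (h3 : K ≤ 3) :
    (-7/2) ≤ (5 / 2 - K / 5) * (31 / 50 + 69 / 50 * K) * (2 * K + 1) - K ^ 3 * (3 - K) * (K + (K + 2) * (7 / 12)) := by
  obtain ⟨t, ht⟩ : ∃ t : ℝ, t = (K - 1) / 2 := ⟨_, rfl⟩
  obtain ⟨r, hr⟩ : ∃ r : ℝ, r = 1 - t := ⟨_, rfl⟩
  have ht0 : 0 ≤ t := by linarith
  have hr0 : 0 ≤ r := by linarith
  have hK : K = 1 + 2 * t := by rw [ht]; ring
  have key : (5 / 2 - K / 5) * (31 / 50 + 69 / 50 * K) * (2 * K + 1) - K ^ 3 * (3 - K) * (K + (K + 2) * (7 / 12)) - (-7/2) =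
      (59/5) * t ^ 0 * r ^ 10 + (44704/375) * t ^ 1 * r ^ 9 + (186041/375) * t ^ 2 * r ^ 8 + (402328/375) * t ^ 3 * r ^ 7 + (459034/375) * t ^ 4 * r ^ 6 + (225008/375) * t ^ 5 * r ^ 5 + (1594/375) * t ^ 6 * r ^ 4 + (16552/125) * t ^ 7 * r ^ 3 + (51311/125) * t ^ 8 * r ^ 2 + (36128/125) * t ^ 9 * r ^ 1 + (8351/125) * t ^ 10 * r ^ 0 := by
    rw [hr, hK]
    ring
  have h0 : 0 ≤ (59/5) * t ^ 0 * r ^ 10 + (44704/375) * t ^ 1 * r ^ 9 + (186041/375) * t ^ 2 * r ^ 8 + (402328/375) * t ^ 3 * r ^ 7 + (459034/375) * t ^ 4 * r ^ 6 + (225008/375) * t ^ 5 * r ^ 5 + (1594/375) * t ^ 6 * r ^ 4 + (16552/125) * t ^ 7 * r ^ 3 + (51311/125) * t ^ 8 * r ^ 2 + (36128/125) * t ^ 9 * r ^ 1 + (8351/125) * t ^ 10 * r ^ 0 := by positivity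
  linarith

/-- constant coefficient -/
theorem cc0 (K : ℝ) (h1 : 1 ≤ K) (h3 : K ≤ 3) :
    (47/10) ≤ (5 / 2 - K / 5) * (31 / 50 + 69 / 50 * K) * (K * (K + 1)) - K ^ 3 * (3 - K) * (K + (K + 2) * (5 / 12)) := by
  obtain ⟨t, ht⟩ : ∃ t : ℝ, t = (K - 1) / 2 := ⟨_, rfl⟩
  obtain ⟨r, hr⟩ : ∃ r : ℝ, r = 1 - t := ⟨_, rfl⟩
  have ht0 : 0 ≤ t := by linarith
  have hr0 : 0 ≤ r := by linarith
  have hK : K = 1 + 2 * t := by rw [ht]; ring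
  have key : (5 / 2 - K / 5) * (31 / 50 + 69 / 50 * K) * (K * (K + 1)) - K ^ 3 * (3 - K) * (K + (K + 2) * (5 / 12)) - (47/10) =
      (7897/750) * t ^ 1 * r ^ 4 + (4533/125) * t ^ 2 * r ^ 3 + (5648/125) * t ^ 3 * r ^ 2 + (9743/125) * t ^ 4 * r ^ 1 + (25957/250) * t ^ 5 * r ^ 0 := by
    rw [hr, hK]
    ring
  have h0 : 0 ≤ (7897/750) * t ^ 1 * r ^ 4 + (4533/125) * t ^ 2 * r ^ 3 + (5648/125) * t ^ 3 * r ^ 2 + (9743/125) * t ^ 4 * r ^ 1 + (25957/250) * t ^ 5 * r ^ 0 := by positivity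
  linarith

/-- the weights -/
theorem certC (K : ℝ) (h1 : 1 ≤ K) (h3 : K ≤ 3) :
    0 ≤ 33 / 5 * K ^ 3 * ((K + 7 / 4) ^ 3 - (K + 3 / 4) ^ 3) - (5 / 2 - K / 5) * ((K + 3 / 4) ^ 3 - 33 / 5) * (K + 7 / 4) ^ 3 := by
  obtain ⟨t, ht⟩ : ∃ t : ℝ, t = (K - 1) / 2 := ⟨_, rfl⟩
  obtain ⟨r, hr⟩ : ∃ r : ℝ, r = 1 - t := ⟨_, rfl⟩
  have ht0 : 0 ≤ t := by linarith
  have hr0 : 0 ≤ r := by linarith
  have hK : K = 1 + 2 * t := by rw [ht]; ring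
  have key : 33 / 5 * K ^ 3 * ((K + 7 / 4) ^ 3 - (K + 3 / 4) ^ 3) - (5 / 2 - K / 5) * ((K + 3 / 4) ^ 3 - 33 / 5) * (K + 7 / 4) ^ 3 - 0 =
      (33019921/204800) * t ^ 0 * r ^ 7 + (237232523/204800) * t ^ 1 * r ^ 6 + (663089757/204800) * t ^ 2 * r ^ 5 + (907418111/204800) * t ^ 3 * r ^ 4 + (648221923/204800) * t ^ 4 * r ^ 3 + (290806929/204800) * t ^ 5 * r ^ 2 + (148670319/204800) * t ^ 6 * r ^ 1 + (62787237/204800) * t ^ 7 * r ^ 0 := by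
    rw [hr, hK]
    ring
  have h0 : 0 ≤ (33019921/204800) * t ^ 0 * r ^ 7 + (237232523/204800) * t ^ 1 * r ^ 6 + (663089757/204800) * t ^ 2 * r ^ 5 + (907418111/204800) * t ^ 3 * r ^ 4 + (648221923/204800) * t ^ 4 * r ^ 3 + (290806929/204800) * t ^ 5 * r ^ 2 + (148670319/204800) * t ^ 6 * r ^ 1 + (62787237/204800) * t ^ 7 * r ^ 0 := by positivity
  linarith

/-- (b4) -/
theorem b4 (K L : ℝ) (h1 : 1 ≤ K) (h3 : K ≤ 3) (hL : 0 ≤ L) :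
    K ^ 3 * (3 - K) * (1 + L) * (K + (K + 2) * (5 / 2 + L) / 6) ≤
      (5 / 2 - K / 5) * (31 / 50 + 69 / 50 * K) * ((K + L) * (K + 1 + L)) := by
  have a2 := cc2 K h1 h3
  have a1 := cc1 K h1 h3
  have a0 := cc0 K h1 h3
  have e : (5 / 2 - K / 5) * (31 / 50 + 69 / 50 * K) * ((K + L) * (K + 1 + L)) -
      K ^ 3 * (3 - K) * (1 + L) * (K + (K + 2) * (5 / 2 + L) / 6) =
      ((5 / 2 - K / 5) * (31 / 50 + 69 / 50 * K) - K ^ 3 * (3 - K) * ((K + 2) / 6)) * L ^ 2 +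
      ((5 / 2 - K / 5) * (31 / 50 + 69 / 50 * K) * (2 * K + 1) -
        K ^ 3 * (3 - K) * (K + (K + 2) * (7 / 12))) * L +
      ((5 / 2 - K / 5) * (31 / 50 + 69 / 50 * K) * (K * (K + 1)) -
        K ^ 3 * (3 - K) * (K + (K + 2) * (5 / 12))) := by ring
  have b2 := mul_le_mul_of_nonneg_right a2 (sq_nonneg L)
  have b1 := mul_le_mul_of_nonneg_right a1 hL
  have : 0 ≤ 43 / 50 * L ^ 2 + -7 / 2 * L + 47 / 10 := by nlinarith [sq_nonneg (L - 2)]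
  linarith

end Pool.Agent.H37.TL
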