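import Pool.Agent.H37.TL.DecJ
import Pool.Agent.H37.TL.DecPoly

/-!
# TL, part DEC

`f m y ≤ f (m-1) y`. With `K = m`, `k = m - 1`, `s = y²`:
`f k - f K = -(1 - w k) (J K - J k) + (w k - w K) (q - J K)`, `J ≤ s` and
`K³ (J K - J k) ≤ (5/2 - K/5) s (1 - s)` for `K ≤ 3`, `J K ≤ J k` for `K ≥ 3`.
-/

set_option autoImplicit false

namespace Pool.Agent.H37.TL

open Pool.MP324

theorem ee_nonneg (y : ℝ) (hy : 0 ≤ y) (hy1 : y < 1) : 0 ≤ ee y := by
  have h1 := Real.one_sub_inv_le_log_of_pos (show (0 : ℝ) < 1 + y by linarith)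
  have h2 := Real.one_sub_inv_le_log_of_pos (show (0 : ℝ) < 1 - y by linarith)
  have p1 : (1 + y) ≠ 0 := by positivity
  have p2 : (1 - y) ≠ 0 := by
    have : 0 < 1 - y := by linarith
    exact this.ne'
  have h3 : y ≤ (1 + y) * Real.log (1 + y) := by
    have := mul_le_mul_of_nonneg_left h1 (show (0 : ℝ) ≤ 1 + y by linarith)
    have e : (1 + y) * (1 - (1 + y)⁻¹) = y := by field_simp; ring
    linarith
  have h4 : -y ≤ (1 - y) * Real.log (1 - y) := by
    have := mul_le_mul_of_nonneg_left h2 (show (0 : ℝ) ≤ 1 - y by linarith)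
    have e : (1 - y) * (1 - (1 - y)⁻¹) = -y := by field_simp; ring
    linarith
  rw [ee, lp_eq, lm_eq]
  have h5 := mul_nonneg cc_pos.le (show 0 ≤ (1 + y) * Real.log (1 + y) + (1 - y) * Real.log (1 - y)
    by linarith)
  linarith

/-- (F5) in the algebraic form -/
theorem f5 (y l L : ℝ) (hy : 0 ≤ y) (hy1 : y < 1) (hl0 : 0 ≤ l) (hl1 : l ≤ 1)
    (hl : y * (1.27 - 0.27 * y) ≤ l) (hL : l * (1 + y + y ^ 2 / 2) ≤ L) :
    l * (1 - l) * ((1 + y) * (2 + L) + L * (1 + L) / 3) ≤ L * (2 - l) * (1 - y) * (1 + L) := by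
  have h1y : 0 < 1 - y := by linarith
  have h27 : 0 < 1 - 27 / 100 * y := by linarith
  obtain ⟨t, ht⟩ : ∃ t : ℝ, t = (1 - l) / ((1 - y) * (1 - 27 / 100 * y)) := ⟨_, rfl⟩
  have ht0 : 0 ≤ t := by rw [ht]; apply div_nonneg (by linarith); positivity
  have ht1 : t ≤ 1 := by
    rw [ht, div_le_one (by positivity)]
    linarith
  have e1 : (1 - y) * ((1 - 27 / 100 * y) * t) = 1 - l := by
    have hne : (1 - y) * (1 - 27 / 100 * y) ≠ 0 := (mul_pos h1y h27).ne'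
    rw [ht, ← mul_assoc, ← mul_div_assoc, mul_div_cancel_left₀ _ hne]
  have c := cert5 y t hy hy1.le ht0 ht1
  rw [e1] at c
  obtain ⟨R, hR⟩ : ∃ R : ℝ, R = 1 + y + y ^ 2 / 2 := ⟨_, rfl⟩
  rw [← hR] at c hL
  have hR1 : 1 ≤ R := by rw [hR]; have := sq_nonneg y; linarith
  obtain ⟨x, hx⟩ : ∃ x : ℝ, x = (1 - 27 / 100 * y) * t := ⟨_, rfl⟩
  rw [← hx] at c e1
  have c2 := mul_nonneg h1y.le c
  have e2 : (1 - y) * ((1 + (1 - l) - (1 - (1 - l)) * x / 3) * R * (1 + (1 - (1 - l)) * R) -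
      x * (1 + y) * (2 + (1 - (1 - l)) * R)) =
      ((1 - y) * (2 - l) - l * ((1 - y) * x) / 3) * (R * (1 + l * R)) -
      ((1 - y) * x) * (1 + y) * (2 + l * R) := by ring
  rw [e2, e1] at c2
  obtain ⟨A, hA⟩ : ∃ A : ℝ, A = (1 - y) * (2 - l) - l * (1 - l) / 3 := ⟨_, rfl⟩
  rw [← hA] at c2
  have hlR : 0 ≤ l * R := mul_nonneg hl0 (by linarith)
  have h3 : 0 ≤ (1 - l) * (1 + y) * (2 + l * R) := by
    apply mul_nonneg (mul_nonneg (by linarith) (by linarith)) (by linarith)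
  have hA0 : 0 ≤ A := by
    have h4 : 0 ≤ A * (R * (1 + l * R)) := by linarith
    have h5 : 0 < R * (1 + l * R) := by positivity
    exact nonneg_of_mul_nonneg_left h4 h5
  have h6 : l * (1 - l) * (1 + y) * (2 + l * R) ≤ A * ((l * R) * (1 + l * R)) := by
    have := mul_le_mul_of_nonneg_left (sub_nonneg.1 c2) hl0
    linarith
  have hL0 : 0 ≤ L := hlR.trans hL
  have h7 : (l * R) * (1 + l * R) * (2 + L) ≤ L * (1 + L) * (2 + l * R) := by
    have : 0 ≤ (L - l * R) * (2 + 2 * (L + l * R) + L * (l * R)) := by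
      apply mul_nonneg (by linarith); positivity
    linarith
  have h8 : l * (1 - l) * (1 + y) * (2 + L) * (2 + l * R) ≤ A * (L * (1 + L)) * (2 + l * R) := by
    have a1 := mul_le_mul_of_nonneg_right h6 (show (0 : ℝ) ≤ 2 + L by linarith)
    have a2 := mul_le_mul_of_nonneg_left h7 hA0
    linarith
  have h9 : l * (1 - l) * (1 + y) * (2 + L) ≤ A * (L * (1 + L)) :=
    le_of_mul_le_mul_right h8 (by linarith)
  rw [hA] at h9
  linarith

/-- the increment of `J` -/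
theorem dJ_eq (K y l L : ℝ) (hK : 1 ≤ K) (hl : l = Pool.MP324.lp y) (hL : L = - Pool.MP324.lm y)
    (hl1 : l < 1) (hL0 : 0 ≤ L) :
    (J K y - J (K - 1) y) * ((K - l) * (K + 1 - l) * ((K + L) * (K + 1 + L))) =
      (1 + y) / 2 * l * (1 - l) * ((K + L) * (K + 1 + L)) -
        (1 - y) / 2 * L * (1 + L) * ((K - l) * (K + 1 - l)) := by
  have p1 : K - l ≠ 0 := by
    have : 0 < K - l := by linarith
    exact this.ne'
  have p2 : K + 1 - l ≠ 0 := by
    have : 0 < K + 1 - l := by linarith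
    exact this.ne'
  have p3 : K + L ≠ 0 := by positivity
  have p4 : K + 1 + L ≠ 0 := by positivity
  have hLm : Pool.MP324.lm y = -L := by rw [hL]; ring
  have e1 : J K y = K * ((1 + y) / 2 * l * (1 / (K + 1 - l)) - (1 - y) / 2 * L * (1 / (K + 1 + L))) := by
    rw [Pool.MP324.J, ap, am, ← hl, hLm]
    rw [show K + 1 - -L = K + 1 + L by ring]
    ring
  have e2 : J (K - 1) y = (K - 1) * ((1 + y) / 2 * l * (1 / (K - l)) - (1 - y) / 2 * L * (1 / (K + L))) := by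
    rw [Pool.MP324.J, ap, am, ← hl, hLm]
    rw [show K - 1 + 1 - -L = K + L by ring, show K - 1 + 1 - l = K - l by ring]
    ring
  rw [e1, e2]
  field_simp
  ring

/-- numerator -/
theorem num_up (K y l L e : ℝ) (hK : 1 ≤ K) (he : e = ((1 + y) * l - (1 - y) * L) / 2)
    (h5 : l * (1 - l) * ((1 + y) * (2 + L) + L * (1 + L) / 3) ≤ L * (2 - l) * (1 - y) * (1 + L)) :
    (1 + y) / 2 * l * (1 - l) * ((K + L) * (K + 1 + L)) -
        (1 - y) / 2 * L * (1 + L) * ((K - l) * (K + 1 - l)) ≤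
      (1 - l) * (1 + L) * (3 - K) * (K * e + (K + 2) * (l * L) / 6) := by
  have hKK : 0 ≤ K * (K - 1) := mul_nonneg (by linarith) (by linarith)
  have h6 := mul_le_mul_of_nonneg_left h5 hKK
  have e1 : (1 - l) * (1 + L) * (3 - K) * (K * e + (K + 2) * (l * L) / 6) -
      ((1 + y) / 2 * l * (1 - l) * ((K + L) * (K + 1 + L)) -
        (1 - y) / 2 * L * (1 + L) * ((K - l) * (K + 1 - l))) =
      (K * (K - 1) * (L * (2 - l) * (1 - y) * (1 + L)) -
       K * (K - 1) * (l * (1 - l) * ((1 + y) * (2 + L) + L * (1 + L) / 3))) / 2 := by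
    rw [he]
    ring
  linarith

theorem m1_aux (K y l : ℝ) (hl0 : 0 ≤ l) (hyl : 69 / 100 * l ≤ y) (hlK : 1 + l ≤ K) :
    31 / 50 + 69 / 50 * K ≤ (1 + y) * ((K - l) * (K + 1 - l)) := by
  obtain ⟨x, hx⟩ : ∃ x : ℝ, x = K - 1 - l := ⟨_, rfl⟩
  have hx0 : 0 ≤ x := by linarith
  have e1 : (K - l) * (K + 1 - l) = (1 + x) * (2 + x) := by rw [hx]; ring
  have e2 : K = 1 + l + x := by rw [hx]; ring
  rw [e1, e2]
  have h1 : 2 + 3 * x ≤ (1 + x) * (2 + x) := by
    have := sq_nonneg x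
    linarith
  have h2 : (1 + 69 / 100 * l) * (2 + 3 * x) ≤ (1 + y) * ((1 + x) * (2 + x)) :=
    mul_le_mul (by linarith) h1 (by linarith) (by linarith)
  have h3 := mul_nonneg hl0 hx0
  linarith

/-- the bound for the increment, `K ≤ 3` -/
theorem dJ_le (K y : ℝ) (hK : 1 ≤ K) (hK3 : K ≤ 3) (hy : 0 < y) (hy1 : y < 1)
    (hlK : 1 + Pool.MP324.lp y ≤ K) :
    K ^ 3 * (J K y - J (K - 1) y) ≤ (5 / 2 - K / 5) * (y ^ 2 * (1 - y ^ 2)) := by
  obtain ⟨l, hl⟩ : ∃ l : ℝ, l = Pool.MP324.lp y := ⟨_, rfl⟩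
  obtain ⟨L, hL⟩ : ∃ L : ℝ, L = - Pool.MP324.lm y := ⟨_, rfl⟩
  have f1 := lp_lo y hy.le hy1.le
  have f2 := lm_lo y hy.le hy1
  have f3 := P_up y hy.le hy1
  have f4 := lp_ge y hy.le hy1.le
  have f5' := lp_lt_one y hy.le hy1
  have f6 := lp_le_cc y hy.le
  have f7 := ee_le_sq y hy.le hy1
  have f8 := lm_nonpos y hy.le hy1
  have hLm : Pool.MP324.lm y = -L := by rw [hL]; ring
  rw [← hl] at f1 f2 f3 f4 f5' f6 hlK
  rw [hLm] at f2 f3 f8
  rw [neg_neg] at f2 f3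
  have hL0 : 0 ≤ L := by linarith
  have hl0 : 0 < l := by linarith
  have hee : ee y = ((1 + y) * l - (1 - y) * L) / 2 := by
    rw [ee, hLm, ← hl]; ring
  have g5 := f5 y l L hy.le hy1 hl0.le f5'.le f1 f2
  have g6 := num_up K y l L (ee y) hK hee g5
  have g7 := dJ_eq K y l L hK hl hL f5' hL0
  have hKl : 1 ≤ K - l := by linarith
  -- the product of the `l` factors
  have m1 : 31 / 50 + 69 / 50 * K ≤ (1 + y) * ((K - l) * (K + 1 - l)) := by
    have hyl : 69 / 100 * l ≤ y := by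
      have h1 := mul_le_mul_of_nonneg_right cc_hi.le hy.le
      linarith
    exact m1_aux K y l hl0.le hyl hlK
  have b := b4 K L hK hK3 hL0
  have hs : 0 < y ^ 2 := by positivity
  -- the bracket
  have n1 : K * ee y + (K + 2) * (l * L) / 6 ≤ y ^ 2 * (K + (K + 2) * (5 / 2 + L) / 6) := by
    have a1 : K * ee y ≤ K * y ^ 2 := mul_le_mul_of_nonneg_left f7 (by linarith)
    have a2 : l * L ≤ y ^ 2 * (5 / 2 + L) := by linarith
    have a3 : (K + 2) * (l * L) ≤ (K + 2) * (y ^ 2 * (5 / 2 + L)) :=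
      mul_le_mul_of_nonneg_left a2 (by linarith)
    linarith
  have n2 : (1 - l) * (1 + L) * (3 - K) * (K * ee y + (K + 2) * (l * L) / 6) ≤
      (1 - y) * (1 + L) * (3 - K) * (y ^ 2 * (K + (K + 2) * (5 / 2 + L) / 6)) := by
    have a1 : (1 - l) * (1 + L) * (3 - K) ≤ (1 - y) * (1 + L) * (3 - K) := by
      apply mul_le_mul_of_nonneg_right _ (by linarith)
      apply mul_le_mul_of_nonneg_right _ (by linarith)
      linarith
    have a2 : 0 ≤ (1 - l) * (1 + L) * (3 - K) :=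
      mul_nonneg (mul_nonneg (by linarith) (by linarith)) (by linarith)
    have a3 : 0 ≤ y ^ 2 * (K + (K + 2) * (5 / 2 + L) / 6) := by positivity
    calc _ ≤ (1 - l) * (1 + L) * (3 - K) * (y ^ 2 * (K + (K + 2) * (5 / 2 + L) / 6)) :=
          mul_le_mul_of_nonneg_left n1 a2
      _ ≤ _ := mul_le_mul_of_nonneg_right a1 a3
  obtain ⟨Q, hQ⟩ : ∃ Q : ℝ, Q = (K - l) * (K + 1 - l) * ((K + L) * (K + 1 + L)) := ⟨_, rfl⟩
  have hQ0 : 0 < Q := by
    rw [hQ]
    have : 0 < K - l := by linarith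
    have : 0 < K + 1 - l := by linarith
    positivity
  rw [← hQ] at g7
  have hth : 0 ≤ 5 / 2 - K / 5 := by linarith
  have n3 : K ^ 3 * ((1 - y) * (1 + L) * (3 - K) * (y ^ 2 * (K + (K + 2) * (5 / 2 + L) / 6))) ≤
      (5 / 2 - K / 5) * (y ^ 2 * (1 - y ^ 2)) * Q := by
    have a1 : 0 ≤ y ^ 2 * (1 - y) := mul_nonneg hs.le (by linarith)
    have a2 := mul_le_mul_of_nonneg_left b a1
    have a3 : 0 ≤ (5 / 2 - K / 5) * ((K + L) * (K + 1 + L)) := by positivity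
    have a4 := mul_le_mul_of_nonneg_left m1 a3
    have a5 := mul_le_mul_of_nonneg_left a4 a1
    rw [hQ]
    calc K ^ 3 * ((1 - y) * (1 + L) * (3 - K) * (y ^ 2 * (K + (K + 2) * (5 / 2 + L) / 6)))
        = y ^ 2 * (1 - y) * (K ^ 3 * (3 - K) * (1 + L) * (K + (K + 2) * (5 / 2 + L) / 6)) := by ring
      _ ≤ y ^ 2 * (1 - y) * ((5 / 2 - K / 5) * (31 / 50 + 69 / 50 * K) * ((K + L) * (K + 1 + L))) := a2
      _ = y ^ 2 * (1 - y) * ((5 / 2 - K / 5) * ((K + L) * (K + 1 + L)) *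
          (31 / 50 + 69 / 50 * K)) := by ring
      _ ≤ y ^ 2 * (1 - y) * ((5 / 2 - K / 5) * ((K + L) * (K + 1 + L)) *
          ((1 + y) * ((K - l) * (K + 1 - l)))) := a5
      _ = _ := by ring
  have n4 : (K ^ 3 * (J K y - J (K - 1) y)) * Q ≤ (5 / 2 - K / 5) * (y ^ 2 * (1 - y ^ 2)) * Q := by
    have a1 := mul_le_mul_of_nonneg_left (g6.trans n2) (show (0 : ℝ) ≤ K ^ 3 by positivity)
    calc (K ^ 3 * (J K y - J (K - 1) y)) * Q = K ^ 3 * ((J K y - J (K - 1) y) * Q) := by ring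
      _ = K ^ 3 * ((1 + y) / 2 * l * (1 - l) * ((K + L) * (K + 1 + L)) -
        (1 - y) / 2 * L * (1 + L) * ((K - l) * (K + 1 - l))) := by rw [g7]
      _ ≤ _ := a1.trans n3
  exact le_of_mul_le_mul_right n4 hQ0

/-- `J` is decreasing for `K ≥ 3` -/
theorem dJ_neg (K y : ℝ) (hK3 : 3 ≤ K) (hy : 0 < y) (hy1 : y < 1) :
    J K y ≤ J (K - 1) y := by
  obtain ⟨l, hl⟩ : ∃ l : ℝ, l = Pool.MP324.lp y := ⟨_, rfl⟩
  obtain ⟨L, hL⟩ : ∃ L : ℝ, L = - Pool.MP324.lm y := ⟨_, rfl⟩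
  have f1 := lp_lo y hy.le hy1.le
  have f2 := lm_lo y hy.le hy1
  have f4 := lp_ge y hy.le hy1.le
  have f5' := lp_lt_one y hy.le hy1
  have f7 := ee_nonneg y hy.le hy1
  have f8 := lm_nonpos y hy.le hy1
  have hLm : Pool.MP324.lm y = -L := by rw [hL]; ring
  rw [← hl] at f1 f2 f4 f5'
  rw [hLm] at f2 f8
  rw [neg_neg] at f2
  have hL0 : 0 ≤ L := by linarith
  have hl0 : 0 < l := by linarith
  have hee : ee y = ((1 + y) * l - (1 - y) * L) / 2 := by
    rw [ee, hLm, ← hl]; ring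
  have g5 := f5 y l L hy.le hy1 hl0.le f5'.le f1 f2
  have g6 := num_up K y l L (ee y) (by linarith) hee g5
  have g7 := dJ_eq K y l L (by linarith) hl hL f5' hL0
  obtain ⟨Q, hQ⟩ : ∃ Q : ℝ, Q = (K - l) * (K + 1 - l) * ((K + L) * (K + 1 + L)) := ⟨_, rfl⟩
  have hQ0 : 0 < Q := by
    rw [hQ]
    have : 0 < K - l := by linarith
    have : 0 < K + 1 - l := by linarith
    positivity
  rw [← hQ] at g7
  have n1 : (1 - l) * (1 + L) * (3 - K) * (K * ee y + (K + 2) * (l * L) / 6) ≤ 0 := by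
    have a1 : 0 ≤ (1 - l) * (1 + L) * (K - 3) * (K * ee y + (K + 2) * (l * L) / 6) := by
      have : 0 ≤ l * L := mul_nonneg hl0.le hL0
      have : 0 ≤ K * ee y := mul_nonneg (by linarith) f7
      apply mul_nonneg (mul_nonneg (mul_nonneg (by linarith) (by linarith)) (by linarith))
      positivity
    linarith
  have n2 : (J K y - J (K - 1) y) * Q ≤ 0 * Q := by
    rw [g7, zero_mul]
    exact g6.trans n1
  have := le_of_mul_le_mul_right n2 hQ0
  linarith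

theorem w_anti (K : ℝ) (hK : 1 ≤ K) : w K ≤ w (K - 1) ∧ w K ≤ 1 := by
  rw [Pool.MP324.w, Pool.MP324.w]
  have h0 : 0 < K - 1 + 7 / 4 := by linarith
  have h1 : (K - 1 + 7 / 4) ^ 3 ≤ (K + 7 / 4) ^ 3 := by
    gcongr
    linarith
  constructor
  · apply div_le_div_of_nonneg_left (by norm_num) (by positivity) h1
  · rw [div_le_one (by positivity)]
    have : (11 / 4 : ℝ) ^ 3 ≤ (K + 7 / 4) ^ 3 := by
      gcongr
      linarith
    norm_num at this
    linarith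

theorem w_key (K : ℝ) (hK : 1 ≤ K) (hK3 : K ≤ 3) :
    (5 / 2 - K / 5) * (1 - w (K - 1)) ≤ K ^ 3 * (w (K - 1) - w K) := by
  have c := certC K hK hK3
  have ha : 0 < (K + 3 / 4) ^ 3 := by positivity
  have hb : 0 < (K + 7 / 4) ^ 3 := by positivity
  have e1 : w (K - 1) = (33 / 5) / (K + 3 / 4) ^ 3 := by
    rw [Pool.MP324.w]; congr 2; ring
  have e2 : w K = (33 / 5) / (K + 7 / 4) ^ 3 := rfl
  have hab : 0 < (K + 3 / 4) ^ 3 * (K + 7 / 4) ^ 3 := mul_pos ha hb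
  have e3 : K ^ 3 * (w (K - 1) - w K) - (5 / 2 - K / 5) * (1 - w (K - 1)) =
      (33 / 5 * K ^ 3 * ((K + 7 / 4) ^ 3 - (K + 3 / 4) ^ 3) -
        (5 / 2 - K / 5) * ((K + 3 / 4) ^ 3 - 33 / 5) * (K + 7 / 4) ^ 3) /
      ((K + 3 / 4) ^ 3 * (K + 7 / 4) ^ 3) := by
    rw [e1, e2]
    field_simp
  have h := div_nonneg c hab.le
  rw [← e3] at h
  linarith

theorem DEC_proved : S_DEC := by
  intro m y hm hy hy1 hy2
  rcases hy.eq_or_lt with h0 | hy0
  · rw [← h0]
    have e : ∀ m : ℝ, f m 0 = 0 := by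
      intro m
      simp [f, J, Pool.MP324.lp, Pool.MP324.lm, q]
    rw [e, e]
  rcases hy1.eq_or_lt with h1 | hy1'
  · -- `y = 1`
    rw [h1] at hy2 ⊢
    have hm2 : 2 ≤ m := by
      have h2 : (2 : ℝ) ^ (1 : ℝ) ≤ (2 : ℝ) ^ (m - 1) := by
        rw [Real.rpow_one]; linarith
      have := (Real.rpow_le_rpow_left_iff (by norm_num : (1 : ℝ) < 2)).1 h2
      linarith
    have e : ∀ m : ℝ, 0 < m → f m 1 = 1 := by
      intro m hm
      have l1 : Pool.MP324.lp 1 = 1 := by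
        rw [Pool.MP324.lp, show (1 : ℝ) + 1 = 2 by norm_num]
        exact Real.logb_self_eq_one (by norm_num)
      have hJ : J m 1 = 1 := by
        rw [J, ap, l1, add_sub_cancel_right]
        have : m * ((1 + 1) / 2 * 1 * (1 / m) + (1 - 1) / 2 * Pool.MP324.lm 1 * am m 1) = m * (1 / m) := by
          ring
        rw [this]
        field_simp
      rw [f, hJ, q]
      ring
    rw [e m (by linarith), e (m - 1) (by linarith)]
  -- the main case
  have hlK : 1 + Pool.MP324.lp y ≤ m := by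
    have h2 : 1 + y ≤ (2 : ℝ) ^ (m - 1) := by linarith
    have h3 : Pool.MP324.lp y ≤ m - 1 := by
      rw [Pool.MP324.lp, Real.logb_le_iff_le_rpow (by norm_num) (by linarith)]
      exact h2
    linarith
  have hJ1 := J_le_sq m y (by linarith) hy hy1'
  have hJ0 := J_le_sq (m - 1) y (by linarith) hy hy1'
  obtain ⟨hw1, hw2⟩ := w_anti m hm
  have hs : 0 < y ^ 2 := by positivity
  have hs1 : 0 < 1 - y ^ 2 := by
    have e : 1 - y ^ 2 = (1 - y) * (1 + y) := by ring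
    rw [e]; exact mul_pos (by linarith) (by linarith)
  have hss : 0 < y ^ 2 * (1 - y ^ 2) := mul_pos hs hs1
  have hq : q y - y ^ 2 = y ^ 2 * (1 - y ^ 2) := by rw [q]; ring
  rw [f, f]
  rcases le_total (w (m - 1)) 1 with hw | hw
  · -- `w ≤ 1`
    have h2 : (w (m - 1) - w m) * (y ^ 2 * (1 - y ^ 2)) ≤ (w (m - 1) - w m) * (q y - J m y) := by
      apply mul_le_mul_of_nonneg_left _ (by linarith)
      linarith
    have h3 : (1 - w (m - 1)) * (J m y - J (m - 1) y) ≤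
        (w (m - 1) - w m) * (y ^ 2 * (1 - y ^ 2)) := by
      rcases le_total m 3 with h3 | h3
      · have a1 := dJ_le m y hm h3 hy0 hy1' hlK
        have a2 := w_key m hm h3
        have a3 := mul_le_mul_of_nonneg_left a1 (show 0 ≤ 1 - w (m - 1) by linarith)
        have a4 := mul_le_mul_of_nonneg_right a2 hss.le
        have hm3 : 0 < m ^ 3 := by positivity
        have a5 : m ^ 3 * ((1 - w (m - 1)) * (J m y - J (m - 1) y)) ≤
            m ^ 3 * ((w (m - 1) - w m) * (y ^ 2 * (1 - y ^ 2))) := by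
          linarith
        exact le_of_mul_le_mul_left a5 hm3
      · have a1 := dJ_neg m y h3 hy0 hy1'
        have a2 : (1 - w (m - 1)) * (J m y - J (m - 1) y) ≤ 0 :=
          mul_nonpos_of_nonneg_of_nonpos (by linarith) (by linarith)
        have a3 : 0 ≤ (w (m - 1) - w m) * (y ^ 2 * (1 - y ^ 2)) :=
          mul_nonneg (by linarith) hss.le
        linarith
    linarith
  · -- `w ≥ 1`
    have a1 : 0 ≤ (w (m - 1) - 1) * (y ^ 2 - J (m - 1) y) := mul_nonneg (by linarith) (by linarith)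
    have a2 : 0 ≤ (1 - w m) * (y ^ 2 - J m y) := mul_nonneg (by linarith) (by linarith)
    have a3 : 0 ≤ (w (m - 1) - w m) * (q y - y ^ 2) := mul_nonneg (by linarith) (by linarith)
    linarith

end Pool.Agent.H37.TL
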