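import Pool.Agent.H37.TL.DecLog

/-!
# TL, part DEC: `J m y ≤ y²`
-/

set_option autoImplicit false

namespace Pool.Agent.H37.TL

open Pool.MP324

theorem gen (F B B' : ℝ → ℝ) (hF0 : F 0 = 0) (hB0 : B 0 = 0)
    (hF : ∀ x, 0 ≤ x → x < 1 → HasDerivAt F (2 * x - B x) x)
    (hB : ∀ x, 0 ≤ x → x < 1 → HasDerivAt B (B' x) x)
    (hmono : ∀ x z, 0 ≤ x → x < z → z < 1 → B' x ≤ B' z)
    (hlow : ∀ x, 0 ≤ x → x < 1 → x ^ 2 - 1 ≤ F x) :
    ∀ y, 0 ≤ y → y < 1 → 0 ≤ F y := by
  have chord : ∀ x z, 0 < x → x < z → z < 1 → B x * z ≤ B z * x := by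
    intro x z hx hxz hz
    obtain ⟨a, ha, ea⟩ := exists_hasDerivAt_eq_slope B B' hx
      (fun t ht => (hB t ht.1 (by linarith [ht.2])).continuousAt.continuousWithinAt)
      (fun t ht => hB t ht.1.le (by linarith [ht.2]))
    obtain ⟨b, hb, eb⟩ := exists_hasDerivAt_eq_slope B B' hxz
      (fun t ht => (hB t (by linarith [ht.1]) (by linarith [ht.2])).continuousAt.continuousWithinAt)
      (fun t ht => hB t (by linarith [ht.1]) (by linarith [ht.2]))
    have h1 := hmono a b ha.1.le (by linarith [ha.2, hb.1]) (by linarith [hb.2])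
    rw [ea, eb, hB0, sub_zero, sub_zero, div_le_div_iff₀ hx (by linarith)] at h1
    nlinarith
  intro y hy hy1
  rcases hy.eq_or_lt with h0 | hy0
  · rw [← h0, hF0]
  by_contra hneg
  push Not at hneg
  rcases le_or_gt 0 (2 * y - B y) with h | h
  · obtain ⟨a, ha, ea⟩ := exists_hasDerivAt_eq_slope F (fun x => 2 * x - B x) hy0
      (fun t ht => (hF t ht.1 (by linarith [ht.2])).continuousAt.continuousWithinAt)
      (fun t ht => hF t ht.1.le (by linarith [ht.2]))
    have h1 := chord a y ha.1 ha.2 hy1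
    have h2 : 0 ≤ 2 * a - B a := by
      have h3 : B y * a ≤ 2 * y * a := mul_le_mul_of_nonneg_right (by linarith) ha.1.le
      have h4 : 0 ≤ y * (2 * a - B a) := by nlinarith
      exact nonneg_of_mul_nonneg_right h4 hy0
    rw [ea, hF0, sub_zero, sub_zero] at h2
    have := (div_nonneg_iff.1 h2)
    rcases this with h5 | h5
    · linarith [h5.1]
    · linarith [h5.2]
  · have hx : ∀ x, y < x → x < 1 → F x ≤ F y := by
      intro x hyx hx1
      obtain ⟨a, ha, ea⟩ := exists_hasDerivAt_eq_slope F (fun x => 2 * x - B x) hyx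
        (fun t ht => (hF t (by linarith [ht.1]) (by linarith [ht.2])).continuousAt.continuousWithinAt)
        (fun t ht => hF t (by linarith [ht.1]) (by linarith [ht.2]))
      have h1 := chord y a hy0 ha.1 (by linarith [ha.2])
      have h2 : 2 * a - B a ≤ 0 := by
        have h3 : 2 * y * a ≤ B y * a := mul_le_mul_of_nonneg_right (by linarith) (by linarith [ha.1])
        have h4 : y * (2 * a - B a) ≤ 0 := by nlinarith
        by_contra h5
        push Not at h5
        nlinarith [mul_pos hy0 h5]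
      try simp only at ea
      rw [ea, div_le_iff₀ (by linarith)] at h2
      linarith
    obtain ⟨d, hd⟩ : ∃ d : ℝ, d = min ((1 - y) / 2) (- F y / 4) := ⟨_, rfl⟩
    have hd1 : d ≤ (1 - y) / 2 := by rw [hd]; exact min_le_left _ _
    have hd2 : d ≤ - F y / 4 := by rw [hd]; exact min_le_right _ _
    have hd0 : 0 < d := by rw [hd]; exact lt_min (by linarith) (by linarith)
    have h1 := hx (1 - d) (by linarith) (by linarith)
    have h2 := hlow (1 - d) (by linarith) (by linarith)
    nlinarith [sq_nonneg d]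

theorem hasDerivAt_logb (u : ℝ) (hu : 0 < u) : HasDerivAt (fun u => Real.logb 2 u) (cc / u) u := by
  have h := (Real.hasDerivAt_log hu.ne').div_const (Real.log 2)
  refine HasDerivAt.congr_deriv h ?_
  rw [cc]
  field_simp

theorem logb_lt_one (u : ℝ) (hu : 0 < u) (hu2 : u < 2) : Real.logb 2 u < 1 := by
  rw [Real.logb_lt_iff_lt_rpow (by norm_num) hu]
  norm_num
  exact hu2

/-- `a(u) = 1/(K - log₂ u)` -/
noncomputable def aa (K u : ℝ) : ℝ := 1 / (K - Real.logb 2 u)

theorem aa_pos (K u : ℝ) (hK : 1 ≤ K) (hu : 0 < u) (hu2 : u < 2) : 0 < aa K u := by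
  have := logb_lt_one u hu hu2
  exact div_pos one_pos (by linarith)

theorem hasDerivAt_aa (K u : ℝ) (hK : 1 ≤ K) (hu : 0 < u) (hu2 : u < 2) :
    HasDerivAt (fun u => aa K u) (cc * aa K u ^ 2 / u) u := by
  have h0 := logb_lt_one u hu hu2
  have hne : K - Real.logb 2 u ≠ 0 := by
    have : 0 < K - Real.logb 2 u := by linarith
    exact this.ne'
  have h := ((hasDerivAt_logb u hu).const_sub K).inv hne
  have e : (fun u => aa K u) = (fun u => (K - Real.logb 2 u)⁻¹) := by
    funext v; rw [aa, one_div]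
  rw [e]
  refine HasDerivAt.congr_deriv h ?_
  rw [aa]
  field_simp

/-- `h(u) = a²(1+2ca)/u` -/
noncomputable def hh (K u : ℝ) : ℝ := aa K u ^ 2 * (1 + 2 * cc * aa K u) / u

noncomputable def h1 (K u : ℝ) : ℝ := (6 * cc ^ 2 * aa K u ^ 4 - aa K u ^ 2) / u ^ 2

theorem hasDerivAt_bb (K u : ℝ) (hK : 1 ≤ K) (hu : 0 < u) (hu2 : u < 2) :
    HasDerivAt (fun u => aa K u + cc * aa K u ^ 2) (cc * hh K u) u := by
  have h := hasDerivAt_aa K u hK hu hu2
  have h2 := h.add ((h.pow 2).const_mul cc)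
  refine HasDerivAt.congr_deriv h2 ?_
  rw [hh]
  field_simp
  ring

theorem hasDerivAt_hh (K u : ℝ) (hK : 1 ≤ K) (hu : 0 < u) (hu2 : u < 2) :
    HasDerivAt (fun u => hh K u) (h1 K u) u := by
  have h := hasDerivAt_aa K u hK hu hu2
  have h2 := ((h.pow 2).mul ((h.const_mul (2 * cc)).const_add 1)).div (hasDerivAt_id u) hu.ne'
  refine HasDerivAt.congr_deriv h2 ?_
  rw [h1]
  simp only [id, Pi.pow_apply, Pi.mul_apply]
  field_simp
  ring

theorem hasDerivAt_h1 (K u : ℝ) (hK : 1 ≤ K) (hu : 0 < u) (hu2 : u < 2) :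
    HasDerivAt (fun u => h1 K u) (2 * aa K u ^ 2 * (12 * (cc * aa K u) ^ 3 - 6 * (cc * aa K u) ^ 2 -
      cc * aa K u + 1) / u ^ 3) u := by
  have h := hasDerivAt_aa K u hK hu hu2
  have h2 := (((h.pow 4).const_mul (6 * cc ^ 2)).sub (h.pow 2)).div (hasDerivAt_pow 2 u)
    (pow_ne_zero 2 hu.ne')
  refine HasDerivAt.congr_deriv h2 ?_
  simp only [Pi.pow_apply, Pi.sub_apply]
  field_simp
  ring

theorem cubic_nonneg (x : ℝ) (hx : 0 ≤ x) : 0 ≤ 12 * x ^ 3 - 6 * x ^ 2 - x + 1 := by
  nlinarith [mul_nonneg hx (sq_nonneg (x - 0.4)), sq_nonneg (x - 0.4)]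

theorem h1_mono (K u v : ℝ) (hK : 1 ≤ K) (hu : 0 < u) (huv : u < v) (hv2 : v < 2) :
    h1 K u ≤ h1 K v := by
  obtain ⟨a, ha, ea⟩ := exists_hasDerivAt_eq_slope (fun u => h1 K u) _ huv
    (fun t ht => (hasDerivAt_h1 K t hK (by linarith [ht.1]) (by linarith [ht.2])).continuousAt.continuousWithinAt)
    (fun t ht => hasDerivAt_h1 K t hK (by linarith [ht.1]) (by linarith [ht.2]))
  have ha0 : 0 < a := by linarith [ha.1]
  have hap := aa_pos K a hK ha0 (by linarith [ha.2])
  have h3 : 0 ≤ 2 * aa K a ^ 2 * (12 * (cc * aa K a) ^ 3 - 6 * (cc * aa K a) ^ 2 -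
      cc * aa K a + 1) / a ^ 3 := by
    have := cubic_nonneg (cc * aa K a) (mul_nonneg cc_pos.le hap.le)
    positivity
  rw [ea] at h3
  have h4 : 0 < v - u := by linarith
  have h5 := (div_nonneg_iff.1 h3)
  rcases h5 with h5 | h5
  · linarith [h5.1]
  · linarith [h5.2]

theorem hh_pair (K x z : ℝ) (hK : 1 ≤ K) (hx : 0 ≤ x) (hxz : x < z) (hz : z < 1) :
    hh K (1 + x) + hh K (1 - x) ≤ hh K (1 + z) + hh K (1 - z) := by
  obtain ⟨a, ha, ea⟩ := exists_hasDerivAt_eq_slope (fun u => hh K u) (fun u => h1 K u)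
    (show 1 + x < 1 + z by linarith)
    (fun t ht => (hasDerivAt_hh K t hK (by linarith [ht.1]) (by linarith [ht.2])).continuousAt.continuousWithinAt)
    (fun t ht => hasDerivAt_hh K t hK (by linarith [ht.1]) (by linarith [ht.2]))
  obtain ⟨b, hb, eb⟩ := exists_hasDerivAt_eq_slope (fun u => hh K u) (fun u => h1 K u)
    (show 1 - z < 1 - x by linarith)
    (fun t ht => (hasDerivAt_hh K t hK (by linarith [ht.1]) (by linarith [ht.2])).continuousAt.continuousWithinAt)
    (fun t ht => hasDerivAt_hh K t hK (by linarith [ht.1]) (by linarith [ht.2]))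
  have h2 := h1_mono K b a hK (by linarith [hb.1]) (by linarith [hb.2, ha.1]) (by linarith [ha.2])
  try simp only at ea eb
  rw [ea, eb] at h2
  have e1 : 1 + z - (1 + x) = z - x := by ring
  have e2 : 1 - x - (1 - z) = z - x := by ring
  rw [e1, e2, div_le_div_iff_of_pos_right (by linarith)] at h2
  linarith

theorem lm_nonpos (y : ℝ) (hy : 0 ≤ y) (hy1 : y < 1) : lm y ≤ 0 := by
  rw [Pool.MP324.lm]
  exact Real.logb_nonpos (by norm_num) (by linarith) (by linarith)

/-- `J` as a sum -/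
theorem J_eq (m y : ℝ) : J m y = m / 2 * ((1 + y) * Real.logb 2 (1 + y) * aa (m + 1) (1 + y) +
    (1 - y) * Real.logb 2 (1 - y) * aa (m + 1) (1 - y)) := by
  rw [Pool.MP324.J, Pool.MP324.lp, Pool.MP324.lm, ap, am, aa, aa, Pool.MP324.lp, Pool.MP324.lm]
  ring

theorem hasDerivAt_g (K u : ℝ) (hK : 1 ≤ K) (hu : 0 < u) (hu2 : u < 2) :
    HasDerivAt (fun u => u * Real.logb 2 u * aa K u)
      (K * (aa K u + cc * aa K u ^ 2) - 1) u := by
  have h := hasDerivAt_aa K u hK hu hu2
  have h2 := ((hasDerivAt_id u).mul (hasDerivAt_logb u hu)).mul h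
  refine HasDerivAt.congr_deriv h2 ?_
  have h0 := logb_lt_one u hu hu2
  have hne : K - Real.logb 2 u ≠ 0 := by
    have : 0 < K - Real.logb 2 u := by linarith
    exact this.ne'
  simp only [id, Pi.mul_apply]
  rw [aa]
  field_simp
  ring

theorem hasDerivAt_J (m y : ℝ) (hm : 0 ≤ m) (hy : 0 ≤ y) (hy1 : y < 1) :
    HasDerivAt (fun y => J m y) (m * (m + 1) / 2 * ((aa (m + 1) (1 + y) + cc * aa (m + 1) (1 + y) ^ 2) -
      (aa (m + 1) (1 - y) + cc * aa (m + 1) (1 - y) ^ 2))) y := by
  have e : (fun y => J m y) = fun y => m / 2 * ((1 + y) * Real.logb 2 (1 + y) * aa (m + 1) (1 + y) +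
    (1 - y) * Real.logb 2 (1 - y) * aa (m + 1) (1 - y)) := by
    funext v; exact J_eq m v
  rw [e]
  have d1 : HasDerivAt (fun x : ℝ => 1 - x) (-1) y := by
    simpa using (hasDerivAt_id y).const_sub 1
  have d2 : HasDerivAt (fun x : ℝ => 1 + x) 1 y := by
    simpa using (hasDerivAt_id y).const_add 1
  have g1 := (hasDerivAt_g (m + 1) (1 + y) (by linarith) (by linarith) (by linarith)).comp y d2
  have g2 := (hasDerivAt_g (m + 1) (1 - y) (by linarith) (by linarith) (by linarith)).comp y d1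
  have g3 := (g1.add g2).const_mul (m / 2)
  refine HasDerivAt.congr_deriv g3 ?_
  ring

theorem J_le_sq (m y : ℝ) (hm : 0 ≤ m) (hy : 0 ≤ y) (hy1 : y < 1) : J m y ≤ y ^ 2 := by
  have key := gen (fun y => y ^ 2 - J m y)
    (fun y => m * (m + 1) / 2 * ((aa (m + 1) (1 + y) + cc * aa (m + 1) (1 + y) ^ 2) -
      (aa (m + 1) (1 - y) + cc * aa (m + 1) (1 - y) ^ 2)))
    (fun y => m * (m + 1) / 2 * (cc * (hh (m + 1) (1 + y) + hh (m + 1) (1 - y)))) ?_ ?_ ?_ ?_ ?_ ?_ y
    hy hy1
  · try simp only at key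
    linarith
  · simp [J_eq]
  · simp
  · intro x hx hx1
    have := (hasDerivAt_pow 2 x).sub (hasDerivAt_J m x hm hx hx1)
    refine HasDerivAt.congr_deriv this ?_
    norm_num
  · intro x hx hx1
    have d1 : HasDerivAt (fun x : ℝ => 1 - x) (-1) x := by
      simpa using (hasDerivAt_id x).const_sub 1
    have d2 : HasDerivAt (fun x : ℝ => 1 + x) 1 x := by
      simpa using (hasDerivAt_id x).const_add 1
    have g1 := (hasDerivAt_bb (m + 1) (1 + x) (by linarith) (by linarith) (by linarith)).comp x d2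
    have g2 := (hasDerivAt_bb (m + 1) (1 - x) (by linarith) (by linarith) (by linarith)).comp x d1
    have g3 := (g1.sub g2).const_mul (m * (m + 1) / 2)
    refine HasDerivAt.congr_deriv g3 ?_
    ring
  · intro x z hx hxz hz
    have h2 := hh_pair (m + 1) x z (by linarith) hx hxz hz
    have hc := cc_pos
    have : 0 ≤ m * (m + 1) / 2 * cc := by positivity
    have h3 := mul_le_mul_of_nonneg_left h2 this
    try simp only
    linarith
  · intro x hx hx1
    have hJ : J m x ≤ 1 := by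
      have h2 := lp_le_one x hx hx1.le
      have h3 := lp_nonneg x hx
      have h4 := lm_nonpos x hx hx1
      have h5 : 0 ≤ am m x := by
        rw [am]; apply div_nonneg zero_le_one; linarith
      have h6 : (1 - x) / 2 * Pool.MP324.lm x * am m x ≤ 0 := by
        have : 0 ≤ (1 - x) / 2 * (-Pool.MP324.lm x) * am m x :=
          mul_nonneg (mul_nonneg (by linarith) (by linarith)) h5
        linarith
      have h7 : m * ((1 + x) / 2 * Pool.MP324.lp x * ap m x) ≤ 1 := by
        rw [ap]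
        have h8 : 0 < m + 1 - Pool.MP324.lp x := by
          have := lp_lt_one x hx hx1
          linarith
        have e : m * ((1 + x) / 2 * Pool.MP324.lp x * (1 / (m + 1 - Pool.MP324.lp x))) =
            (m * ((1 + x) / 2) * Pool.MP324.lp x) / (m + 1 - Pool.MP324.lp x) := by ring
        rw [e, div_le_one h8]
        have h9 : m * ((1 + x) / 2) * Pool.MP324.lp x ≤ m * 1 * Pool.MP324.lp x := by
          apply mul_le_mul_of_nonneg_right _ h3
          apply mul_le_mul_of_nonneg_left _ hm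
          linarith
        nlinarith
      rw [Pool.MP324.J]
      nlinarith [mul_nonneg hm (neg_nonneg.2 h6)]
    try simp only
    linarith

/-- `e = 1 - H` -/
noncomputable def ee (y : ℝ) : ℝ := ((1 + y) * Pool.MP324.lp y + (1 - y) * Pool.MP324.lm y) / 2

theorem ee_le_sq (y : ℝ) (hy : 0 ≤ y) (hy1 : y < 1) : ee y ≤ y ^ 2 := by
  have key := gen (fun y => y ^ 2 - ee y)
    (fun y => (Real.logb 2 (1 + y) - Real.logb 2 (1 - y)) / 2)
    (fun y => (cc / (1 + y) + cc / (1 - y)) / 2) ?_ ?_ ?_ ?_ ?_ ?_ y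
    hy hy1
  · try simp only at key
    linarith
  · simp [ee, Pool.MP324.lp, Pool.MP324.lm]
  · simp
  · intro x hx hx1
    have d1 : HasDerivAt (fun x : ℝ => 1 - x) (-1) x := by
      simpa using (hasDerivAt_id x).const_sub 1
    have d2 : HasDerivAt (fun x : ℝ => 1 + x) 1 x := by
      simpa using (hasDerivAt_id x).const_add 1
    have g1 := (hasDerivAt_logb (1 + x) (by linarith)).comp x d2
    have g2 := (hasDerivAt_logb (1 - x) (by linarith)).comp x d1
    have g3 := (hasDerivAt_pow 2 x).sub (((d2.mul g1).add (d1.mul g2)).div_const 2)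
    refine HasDerivAt.congr_deriv g3 ?_
    have p1 : (1 + x) ≠ 0 := by positivity
    have p2 : (1 - x) ≠ 0 := by
      have : 0 < 1 - x := by linarith
      exact this.ne'
    simp only [Function.comp]
    field_simp
    ring
  · intro x hx hx1
    have d1 : HasDerivAt (fun x : ℝ => 1 - x) (-1) x := by
      simpa using (hasDerivAt_id x).const_sub 1
    have d2 : HasDerivAt (fun x : ℝ => 1 + x) 1 x := by
      simpa using (hasDerivAt_id x).const_add 1
    have g1 := (hasDerivAt_logb (1 + x) (by linarith)).comp x d2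
    have g2 := (hasDerivAt_logb (1 - x) (by linarith)).comp x d1
    have g3 := (g1.sub g2).div_const 2
    refine HasDerivAt.congr_deriv g3 ?_
    ring
  · intro x z hx hxz hz
    have hc := cc_pos
    have e : ∀ t : ℝ, 0 ≤ t → t < 1 → (cc / (1 + t) + cc / (1 - t)) / 2 = cc / (1 - t ^ 2) := by
      intro t ht ht1
      have p1 : (1 + t) ≠ 0 := by positivity
      have p2 : (1 - t) ≠ 0 := by
        have : 0 < 1 - t := by linarith
        exact this.ne'
      have p3 : (1 - t ^ 2) ≠ 0 := by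
        have : 1 - t ^ 2 = (1 - t) * (1 + t) := by ring
        rw [this]; exact mul_ne_zero p2 p1
      field_simp
      ring
    try simp only
    rw [e x hx (by linarith), e z (by linarith) hz]
    apply div_le_div_of_nonneg_left hc.le
    · nlinarith
    · nlinarith
  · intro x hx hx1
    have h2 := lp_le_one x hx hx1.le
    have h3 := lp_nonneg x hx
    have h4 := lm_nonpos x hx hx1
    simp only [ee]
    nlinarith [mul_nonneg (show (0 : ℝ) ≤ 1 - x by linarith) (neg_nonneg.2 h4)]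

end Pool.Agent.H37.TL
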