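import Pool.Agent.H77.TL.Stm

/-!
# TL, part DEC: logarithm inequalities
-/

set_option autoImplicit false

namespace Pool.Agent.H37.TL

open Pool.MP324

theorem log2_pos : 0 < Real.log 2 := Real.log_pos (by norm_num)

theorem cc_pos : 0 < cc := by rw [cc]; exact div_pos one_pos log2_pos

theorem cc_lo : (1.4426 : ℝ) < cc := by
  rw [cc, lt_div_iff₀ log2_pos]
  have := Real.log_two_lt_d9
  nlinarith

theorem cc_hi : cc < (1.4428 : ℝ) := by
  rw [cc, div_lt_iff₀ log2_pos]
  have := Real.log_two_gt_d9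
  nlinarith

theorem lp_eq (y : ℝ) : lp y = cc * Real.log (1 + y) := by
  rw [Pool.MP324.lp, cc, Real.logb]; ring

theorem lm_eq (y : ℝ) : lm y = cc * Real.log (1 - y) := by
  rw [lm, cc, Real.logb]; ring

/-- `log u ≤ (u - 1/u)/2` for `u ≥ 1` -/
theorem log_le_sinh (u : ℝ) (hu : 1 ≤ u) : Real.log u ≤ (u - u⁻¹) / 2 := by
  rw [← Real.sinh_log (by linarith)]
  exact Real.self_le_sinh_iff.2 (Real.log_nonneg hu)

/-- `log (1+y) ≤ y (2+y) / (2 (1+y))` -/
theorem log_up (y : ℝ) (hy : 0 ≤ y) : Real.log (1 + y) ≤ y * (2 + y) / (2 * (1 + y)) := by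
  have h := log_le_sinh (1 + y) (by linarith)
  have e : ((1 + y) - (1 + y)⁻¹) / 2 = y * (2 + y) / (2 * (1 + y)) := by
    field_simp; ring
  rw [e] at h
  exact h

/-- `-log (1-y) ≤ y (2-y) / (2 (1-y))` -/
theorem neg_log_up (y : ℝ) (hy : 0 ≤ y) (hy1 : y < 1) :
    - Real.log (1 - y) ≤ y * (2 - y) / (2 * (1 - y)) := by
  have h1 : 0 < 1 - y := by linarith
  have h := log_le_sinh (1 - y)⁻¹ ((one_le_inv₀ h1).2 (by linarith))
  rw [Real.log_inv, inv_inv] at h
  have e : ((1 - y)⁻¹ - (1 - y)) / 2 = y * (2 - y) / (2 * (1 - y)) := by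
    field_simp; ring
  rw [e] at h
  exact h

theorem lp_le_one (y : ℝ) (hy : 0 ≤ y) (hy1 : y ≤ 1) : lp y ≤ 1 := by
  rw [Pool.MP324.lp, Real.logb_le_iff_le_rpow (by norm_num) (by linarith)]
  norm_num
  linarith

theorem lp_lt_one (y : ℝ) (hy : 0 ≤ y) (hy1 : y < 1) : lp y < 1 := by
  rw [Pool.MP324.lp, Real.logb_lt_iff_lt_rpow (by norm_num) (by linarith)]
  norm_num
  linarith

theorem lp_nonneg (y : ℝ) (hy : 0 ≤ y) : 0 ≤ lp y :=
  Real.logb_nonneg (by norm_num) (by linarith)

theorem lp_pos (y : ℝ) (hy : 0 < y) : 0 < lp y :=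
  Real.logb_pos (by norm_num) (by linarith)

theorem lp_le_cc (y : ℝ) (hy : 0 ≤ y) : lp y ≤ cc * y := by
  rw [lp_eq]
  have := Real.log_le_sub_one_of_pos (show (0 : ℝ) < 1 + y by linarith)
  exact mul_le_mul_of_nonneg_left (by linarith) cc_pos.le

/-- (F1') -/
theorem lp_lo (y : ℝ) (hy : 0 ≤ y) (hy1 : y ≤ 1) : y * (1.27 - 0.27 * y) ≤ lp y := by
  have hl2 := log2_pos
  have hl2u := Real.log_two_lt_d9
  have hl2l := Real.log_two_gt_d9
  have key : Real.log 2 * (y * (1.27 - 0.27 * y)) ≤ Real.log (1 + y) := by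
    rcases le_total y (1 / 2) with h | h
    · have h1 := Real.le_log_one_add_of_nonneg hy
      refine le_trans ?_ h1
      rw [le_div_iff₀ (by linarith)]
      have h2 : 0 ≤ y * (1.27 - 0.27 * y) := mul_nonneg hy (by linarith)
      have h3 : Real.log 2 * (y * (1.27 - 0.27 * y)) ≤ 0.69315 * (y * (1.27 - 0.27 * y)) :=
        mul_le_mul_of_nonneg_right (by linarith) h2
      have h4 : 0.69315 * (y * (1.27 - 0.27 * y)) * (y + 2) ≤ 2 * y := by
        have : 0 ≤ y * (2 - 0.69315 * (1.27 - 0.27 * y) * (y + 2)) := by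
          apply mul_nonneg hy
          nlinarith
        nlinarith
      nlinarith [mul_le_mul_of_nonneg_right h3 (show (0 : ℝ) ≤ y + 2 by linarith)]
    · -- v = (1-y)/2
      obtain ⟨v, hv⟩ : ∃ v : ℝ, v = (1 - y) / 2 := ⟨_, rfl⟩
      have hv0 : 0 ≤ v := by rw [hv]; linarith
      have hv1 : v ≤ 1 / 4 := by rw [hv]; linarith
      have h1 := neg_log_up v hv0 (by linarith)
      have e : Real.log (1 + y) = Real.log 2 + Real.log (1 - v) := by
        rw [← Real.log_mul (by norm_num) (by linarith)]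
        congr 1
        rw [hv]; ring
      rw [e]
      have hy' : y = 1 - 2 * v := by rw [hv]; ring
      rw [hy']
      have h2 : v * (2 - v) / (2 * (1 - v)) ≤ 2 * v * (0.69314 * (0.73 + 0.54 * v)) := by
        rw [div_le_iff₀ (by linarith)]
        have : 0 ≤ v * (4 * (0.69314 * (0.73 + 0.54 * v)) * (1 - v) - (2 - v)) := by
          apply mul_nonneg hv0
          nlinarith
        nlinarith
      have h3 : 2 * v * (0.69314 * (0.73 + 0.54 * v)) ≤ 2 * v * (Real.log 2 * (0.73 + 0.54 * v)) := by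
        have : 0 ≤ 2 * v * (0.73 + 0.54 * v) := by positivity
        nlinarith
      nlinarith
  rw [lp_eq, cc, div_mul_eq_mul_div, one_mul, le_div_iff₀ hl2]
  linarith

theorem lp_ge (y : ℝ) (hy : 0 ≤ y) (hy1 : y ≤ 1) : y ≤ lp y := by
  have := lp_lo y hy hy1
  nlinarith

/-- (F2') -/
theorem lm_lo (y : ℝ) (hy : 0 ≤ y) (hy1 : y < 1) : lp y * (1 + y + y ^ 2 / 2) ≤ - lm y := by
  have key : (1 + y + y ^ 2 / 2) * Real.log (1 + y) ≤ - Real.log (1 - y) := by
    have hmono : MonotoneOn (fun x : ℝ => - Real.log (1 - x) - (1 + x + x ^ 2 / 2) * Real.log (1 + x))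
        (Set.Ico 0 1) := by
      apply monotoneOn_of_deriv_nonneg (convex_Ico 0 1)
      · apply ContinuousOn.sub
        · apply ContinuousOn.neg
          apply ContinuousOn.log (by fun_prop)
          intro x hx
          exact (sub_pos.2 hx.2).ne'
        · apply ContinuousOn.mul (by fun_prop)
          apply ContinuousOn.log (by fun_prop)
          intro x hx
          have := hx.1
          positivity
      · intro x hx
        rw [interior_Ico] at hx
        have h1 : (1 - x) ≠ 0 := (sub_pos.2 hx.2).ne'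
        have h2 : (1 + x) ≠ 0 := by have := hx.1; positivity
        apply DifferentiableAt.differentiableWithinAt
        fun_prop (disch := assumption)
      · intro x hx
        rw [interior_Ico] at hx
        have hx0 := hx.1
        have hx1 := hx.2
        have h1 : (0 : ℝ) < 1 - x := by linarith
        have h2 : (0 : ℝ) < 1 + x := by linarith
        have hd : HasDerivAt (fun x : ℝ => - Real.log (1 - x) - (1 + x + x ^ 2 / 2) * Real.log (1 + x))
            (-((-1) / (1 - x)) - ((1 + x) * Real.log (1 + x) + (1 + x + x ^ 2 / 2) * (1 / (1 + x)))) x := by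
          have d1 : HasDerivAt (fun x : ℝ => 1 - x) (-1) x := by
            simpa using (hasDerivAt_id x).const_sub 1
          have d2 : HasDerivAt (fun x : ℝ => 1 + x) 1 x := by
            simpa using (hasDerivAt_id x).const_add 1
          have d3 : HasDerivAt (fun x : ℝ => 1 + x + x ^ 2 / 2) (1 + x) x := by
            have := d2.add ((hasDerivAt_pow 2 x).div_const 2)
            refine HasDerivAt.congr_deriv this ?_
            norm_num
          exact (d1.log h1.ne').neg.sub (d3.mul (d2.log h2.ne'))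
        rw [hd.deriv]
        have h3 := log_up x hx0.le
        have h4 : (1 + x) * Real.log (1 + x) ≤ x * (2 + x) / 2 := by
          have := mul_le_mul_of_nonneg_left h3 h2.le
          refine this.trans (le_of_eq ?_)
          field_simp
        have h5 : -((-1) / (1 - x)) - (x * (2 + x) / 2 + (1 + x + x ^ 2 / 2) * (1 / (1 + x))) =
            x ^ 2 * (x * (3 + x) / (2 * (1 - x) * (1 + x))) := by
          field_simp
          ring
        have h6 : 0 ≤ x ^ 2 * (x * (3 + x) / (2 * (1 - x) * (1 + x))) := by positivity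
        linarith
    have h0 := hmono (Set.left_mem_Ico.2 one_pos) ⟨hy, hy1⟩ hy

    norm_num at h0
    linarith
  rw [lp_eq, lm_eq]
  nlinarith [cc_pos]

/-- (F4) -/
theorem P_up (y : ℝ) (hy : 0 ≤ y) (hy1 : y < 1) :
    (- lm y) * (lp y - y ^ 2) ≤ 5 / 2 * y ^ 2 := by
  have h1 := neg_log_up y hy hy1
  have hc := cc_pos
  have hcl := cc_lo
  have hch := cc_hi
  have h2 : - lm y ≤ cc * (y * (2 - y) / (2 * (1 - y))) := by
    rw [lm_eq]
    have := mul_le_mul_of_nonneg_left h1 hc.le
    linarith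
  have h1y : 0 < 1 - y := by linarith
  have h3 := lp_ge y hy hy1.le
  have h4 : 0 ≤ lp y - y ^ 2 := by nlinarith
  have h5 : (- lm y) * (lp y - y ^ 2) ≤ cc * (y * (2 - y) / (2 * (1 - y))) * (lp y - y ^ 2) :=
    mul_le_mul_of_nonneg_right h2 h4
  refine h5.trans ?_
  have h6 : cc * (2 - y) * (lp y - y ^ 2) ≤ 5 * y * (1 - y) := by
    rcases le_total y (7 / 10) with h | h
    · have h7 := lp_le_cc y hy
      have h8 : cc * (2 - y) * (lp y - y ^ 2) ≤ cc * (2 - y) * (cc * y - y ^ 2) := by
        apply mul_le_mul_of_nonneg_left (by linarith)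
        apply mul_nonneg hc.le (by linarith)
      refine h8.trans ?_
      have h9 : cc * (2 - y) * (cc - y) ≤ 5 * (1 - y) := by
        have h10 : cc * (2 - y) * (cc - y) ≤ 1.4428 * (2 - y) * (1.4428 - y) := by
          have : 0 ≤ cc - y := by linarith
          have h11 : cc * (2 - y) ≤ 1.4428 * (2 - y) := by nlinarith
          have h12 : 0 ≤ 1.4428 * (2 - y) := by nlinarith
          calc cc * (2 - y) * (cc - y) ≤ 1.4428 * (2 - y) * (cc - y) :=
                mul_le_mul_of_nonneg_right h11 this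
            _ ≤ _ := mul_le_mul_of_nonneg_left (by linarith) h12
        nlinarith
      nlinarith [mul_le_mul_of_nonneg_left h9 hy]
    · have h7 := lp_le_one y hy hy1.le
      have h8 : cc * (2 - y) * (lp y - y ^ 2) ≤ 1.4428 * (2 - y) * (1 - y ^ 2) := by
        have h11 : cc * (2 - y) ≤ 1.4428 * (2 - y) := by nlinarith
        have h12 : 0 ≤ 1.4428 * (2 - y) := by nlinarith
        calc cc * (2 - y) * (lp y - y ^ 2) ≤ 1.4428 * (2 - y) * (lp y - y ^ 2) :=
              mul_le_mul_of_nonneg_right h11 h4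
          _ ≤ _ := mul_le_mul_of_nonneg_left (by linarith) h12
      refine h8.trans ?_
      have h9 : 1.4428 * (2 - y) * (1 + y) ≤ 5 * y := by nlinarith
      nlinarith [mul_le_mul_of_nonneg_right h9 h1y.le]
  have h7 : cc * (y * (2 - y) / (2 * (1 - y))) * (lp y - y ^ 2) =
      y * (cc * (2 - y) * (lp y - y ^ 2)) / (2 * (1 - y)) := by
    field_simp
  rw [h7, div_le_iff₀ (by linarith)]
  nlinarith [mul_le_mul_of_nonneg_left h6 hy]

end Pool.Agent.H37.TL
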